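import Mathlib
import Pool.Agent.H66.TrPoly2

set_option autoImplicit false

namespace Pool.Agent.Results.MP_81f2fa_al.Cubic
open Pool.Agent.H66.TrPoly

/-- The maximal support size of trace polynomials of cyclically reduced words of length `n`
grows at least cubically. -/
theorem result : ∃ c : ℝ, 0 < c ∧ ∀ᶠ n : ℕ in Filter.atTop, c * (n : ℝ) ^ 3 ≤ M n :=
  main

end Pool.Agent.Results.MP_81f2fa_al.Cubic
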